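import Mathlib

set_option autoImplicit false

/-!
Smooth functions on the upper half plane, invariant under `SL(2, ℤ)`, equal to `1` on a given compact set and zero high
in the cusp.
-/

open UpperHalfPlane Filter Topology

namespace Pool.Agent.Q30.JL

/-- `y |θ(z)|⁴` -/
noncomputable def v (z : ℂ) : ℝ := z.im * ‖jacobiTheta z‖ ^ 4

lemma v_two (z : ℂ) : v (z + 2) = v z := by
  unfold v
  rw [add_comm z 2, jacobiTheta_two_add]
  simp

lemma v_sub_two (z : ℂ) : v (z - 2) = v z := by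
  rw [← v_two (z - 2)]
  congr 1
  ring

lemma v_inv {z : ℂ} (hz : 0 < z.im) : v (-z⁻¹) = v z := by
  have h := jacobiTheta_S_smul ⟨z, hz⟩
  rw [modular_S_smul] at h
  have hz0 : z ≠ 0 := by rintro rfl; simp at hz
  have h1 : jacobiTheta (-z⁻¹) = (-Complex.I * z) ^ (1 / 2 : ℂ) * jacobiTheta z := by
    rw [neg_inv]
    exact h
  unfold v
  rw [h1, norm_mul, mul_pow]
  have h2 : ‖(-Complex.I * z) ^ (1 / 2 : ℂ)‖ ^ 4 = ‖z‖ ^ 2 := by
    have h5 : ((-Complex.I * z) ^ (1 / 2 : ℂ)) ^ 4 = (-Complex.I * z) ^ 2 := by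
      rw [← Complex.cpow_nat_mul, ← Complex.cpow_ofNat]
      norm_num
    rw [← norm_pow, h5, norm_pow, norm_mul, norm_neg, Complex.norm_I, one_mul]
  rw [h2]
  have h3 : (-z⁻¹).im = z.im / ‖z‖ ^ 2 := by
    rw [Complex.neg_im, Complex.inv_im, neg_div, neg_neg, Complex.normSq_eq_norm_sq]
  rw [h3]
  have : ‖z‖ ≠ 0 := norm_ne_zero_iff.2 hz0
  field_simp

lemma im_inv_pos {z : ℂ} (hz : 0 < z.im) : 0 < (-z⁻¹).im := by
  have h3 : (-z⁻¹).im = z.im / ‖z‖ ^ 2 := by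
    rw [Complex.neg_im, Complex.inv_im, neg_div, neg_neg, Complex.normSq_eq_norm_sq]
  rw [h3]
  have : z ≠ 0 := by rintro rfl; simp at hz
  positivity

/-- the invariant function -/
noncomputable def uu (z : ℂ) : ℝ := v z + v (z + 1) + v (-z⁻¹ + 1)

lemma uu_inv {z : ℂ} (hz : 0 < z.im) : uu (-z⁻¹) = uu z := by
  unfold uu
  have e : -(-z⁻¹)⁻¹ = z := by rw [neg_inv, neg_neg, inv_inv]
  rw [e, v_inv hz]
  ring

lemma uu_add {z : ℂ} (hz : 0 < z.im) : uu (z + 1) = uu z := by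
  unfold uu
  have e1 : v (z + 1 + 1) = v z := by
    rw [← v_two z]
    congr 1
    ring
  have hz0 : z ≠ 0 := by rintro rfl; simp at hz
  have hz1 : z + 1 ≠ 0 := by
    intro h
    have : (z + 1).im = 0 := by rw [h]; simp
    simp at this
    exact hz.ne' this
  have hp : 0 < (z + 1).im := by simpa using hz
  have e2 : v (-(z + 1)⁻¹ + 1) = v (-z⁻¹ + 1) := by
    have h1 : v (-z⁻¹ + 1 - 2) = v (-z⁻¹ + 1) := v_sub_two _
    have h2 : 0 < (-z⁻¹ + 1 - 2).im := by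
      have := im_inv_pos hz
      simpa using this
    rw [← h1, ← v_inv h2]
    congr 1
    have e5 : -z⁻¹ + 1 - 2 = -((z + 1) / z) := by
      field_simp
      ring
    rw [e5, inv_neg, neg_neg, inv_div]
    field_simp
    ring
  rw [e1, e2]
  ring

lemma v_nonneg {z : ℂ} (hz : 0 < z.im) : 0 ≤ v z := by unfold v; positivity

lemma v_smooth : ContDiffOn ℝ ⊤ v {z : ℂ | 0 < z.im} := by
  have ho : IsOpen {z : ℂ | 0 < z.im} := isOpen_lt continuous_const Complex.continuous_im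
  have h1 : ContDiffOn ℂ ⊤ jacobiTheta {z : ℂ | 0 < z.im} :=
    (DifferentiableOn.contDiffOn (fun z hz => (differentiableAt_jacobiTheta hz).differentiableWithinAt) ho)
  have h2 : ContDiffOn ℝ ⊤ jacobiTheta {z : ℂ | 0 < z.im} := h1.restrict_scalars ℝ
  have h3 : ContDiffOn ℝ ⊤ (fun z : ℂ => z.im * (‖jacobiTheta z‖ ^ 2) ^ 2) {z : ℂ | 0 < z.im} :=
    Complex.imCLM.contDiff.contDiffOn.mul ((h2.norm_sq ℝ).pow 2)
  refine h3.congr fun z _ => ?_
  unfold v
  ring

lemma isOpenH : IsOpen {z : ℂ | 0 < z.im} := isOpen_lt continuous_const Complex.continuous_im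

lemma uu_smooth : ContDiffOn ℝ ⊤ uu {z : ℂ | 0 < z.im} := by
  have h1 : ContDiffOn ℝ ⊤ (fun z : ℂ => v (z + 1)) {z : ℂ | 0 < z.im} := by
    refine v_smooth.comp (contDiff_id.add contDiff_const).contDiffOn ?_
    intro z hz
    simpa using hz
  have h2 : ContDiffOn ℝ ⊤ (fun z : ℂ => v (-z⁻¹ + 1)) {z : ℂ | 0 < z.im} := by
    refine v_smooth.comp ((ContDiffOn.neg ?_).add contDiff_const.contDiffOn) ?_
    · apply contDiffOn_id.inv
      rintro z hz rfl
      simp at hz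
    · intro z hz
      have := im_inv_pos hz
      simpa using this
  exact (v_smooth.add h1).add h2

/-- growth in the cusp -/
lemma uu_large (R : ℝ) : ∃ Y : ℝ, 0 < Y ∧ ∀ z : ℂ, Y ≤ z.im → R ≤ uu z := by
  refine ⟨max 1 (16 * R), by positivity, fun z hz => ?_⟩
  have h1 : 1 ≤ z.im := (le_max_left _ _).trans hz
  have h2 : 16 * R ≤ z.im := (le_max_right _ _).trans hz
  have hz0 : 0 < z.im := by linarith
  have h3 := norm_jacobiTheta_sub_one_le hz0
  have h4 : Real.exp (-Real.pi * z.im) ≤ 1 / 5 := by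
    have h5 : -Real.pi * z.im ≤ -3 := by nlinarith [Real.pi_gt_three]
    calc Real.exp (-Real.pi * z.im) ≤ Real.exp (-3) := Real.exp_le_exp.2 h5
      _ ≤ 1 / 5 := by
          rw [Real.exp_neg, inv_eq_one_div]
          apply one_div_le_one_div_of_le (by norm_num)
          have h6 := Real.add_one_le_exp (3 : ℝ)
          have h7 := Real.exp_one_gt_d9
          have h8 : Real.exp 3 = Real.exp 1 ^ 3 := by rw [← Real.exp_nat_mul]; norm_num
          rw [h8]
          have : (2 : ℝ) ^ 3 ≤ Real.exp 1 ^ 3 := by gcongr; linarith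
          linarith
  have h5 : 0 < Real.exp (-Real.pi * z.im) := Real.exp_pos _
  have h6 : ‖jacobiTheta z - 1‖ ≤ 1 / 2 := by
    refine h3.trans ?_
    rw [div_mul_eq_mul_div, div_le_iff₀ (by linarith)]
    linarith
  have h7 : 1 / 2 ≤ ‖jacobiTheta z‖ := by
    have := norm_sub_norm_le (1 : ℂ) (1 - jacobiTheta z)
    rw [norm_one, sub_sub_cancel, norm_sub_rev] at this
    linarith
  have h8 : R ≤ v z := by
    unfold v
    have : (1 / 2 : ℝ) ^ 4 ≤ ‖jacobiTheta z‖ ^ 4 := by gcongr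
    nlinarith
  have h9 : 0 ≤ v (z + 1) := v_nonneg (by simpa using hz0)
  have h10 : 0 ≤ v (-z⁻¹ + 1) := v_nonneg (by simpa using im_inv_pos hz0)
  unfold uu
  linarith

/-- a test function which is one on a compact set -/
theorem exists_bump (K : Set ℂ) (hK : IsCompact K) (hKs : K ⊆ {z : ℂ | 0 < z.im}) :
    ∃ ψ : ℂ → ℝ, (∀ n : ℕ, ContDiffOn ℝ n ψ {z : ℂ | 0 < z.im}) ∧
      (∀ z : ℂ, 0 < z.im → ψ (z + 1) = ψ z ∧ ψ (-z⁻¹) = ψ z) ∧ (∃ Y : ℝ, ∀ z : ℂ, Y ≤ z.im → ψ z = 0) ∧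
      (∀ z, 0 ≤ ψ z) ∧ ∀ z ∈ K, ψ z = 1 := by
  obtain ⟨R, hR⟩ : ∃ R : ℝ, ∀ z ∈ K, uu z ≤ R := by
    obtain ⟨R, hR⟩ := (hK.image_of_continuousOn (uu_smooth.continuousOn.mono hKs)).bddAbove
    exact ⟨R, fun z hz => hR ⟨z, hz, rfl⟩⟩
  obtain ⟨Y, hY, hYu⟩ := uu_large (R + 1)
  refine ⟨fun z => Real.smoothTransition (R + 1 - uu z), fun n => ?_, fun z hz => ?_, ⟨Y, fun z hz => ?_⟩, fun z => ?_,
    fun z hz => ?_⟩
  · exact Real.smoothTransition.contDiff.comp_contDiffOn (contDiffOn_const.sub (uu_smooth.of_le le_top))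
  · simp only [uu_inv hz, uu_add hz, and_self]
  · exact Real.smoothTransition.zero_of_nonpos (by linarith [hYu z hz])
  · exact Real.smoothTransition.nonneg _
  · exact Real.smoothTransition.one_of_one_le (by linarith [hR z hz])

end Pool.Agent.Q30.JL
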