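import Pool.Agent.Q30.JL.Gauss

set_option autoImplicit false

/-!
Convergence of joint laws and joint moments of families of functions on the modular surface.
-/

open MeasureTheory ProbabilityTheory Filter Topology

namespace Pool.Agent.Q30.JL

/-- the fundamental domain -/
def FD : Set ℂ := {z : ℂ | 0 < z.im ∧ |z.re| ≤ 1 / 2 ∧ 1 ≤ ‖z‖}

/-- a test function on the modular surface -/
structure Test (ψ : ℂ → ℝ) : Prop where
  smooth : ∀ n : ℕ, ContDiffOn ℝ n ψ {z : ℂ | 0 < z.im}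
  invariant : ∀ z : ℂ, 0 < z.im → ψ (z + 1) = ψ z ∧ ψ (-z⁻¹) = ψ z
  cusp : ∃ Y : ℝ, ∀ z : ℂ, Y ≤ z.im → ψ z = 0

lemma Test.sq {ψ : ℂ → ℝ} (h : Test ψ) : Test fun z => ψ z ^ 2 where
  smooth := fun n => (h.smooth n).pow 2
  invariant := fun z hz => by
    obtain ⟨h1, h2⟩ := h.invariant z hz
    simp only [h1, h2, and_self]
  cusp := by
    obtain ⟨Y, hY⟩ := h.cusp
    exact ⟨Y, fun z hz => by simp [hY z hz]⟩

/-- the part of the fundamental domain below the height `Y` -/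
def KY (Y : ℝ) : Set ℂ := FD ∩ {z : ℂ | z.im ≤ Y}

lemma KY_eq (Y : ℝ) : KY Y = (Set.Icc (-(1 / 2)) (1 / 2) ×ℂ Set.Icc (1 / 2) Y) ∩ {z : ℂ | 1 ≤ ‖z‖} := by
  ext z
  simp only [KY, FD, Set.mem_inter_iff, Set.mem_ofPred_eq, Complex.mem_reProdIm, Set.mem_Icc, abs_le]
  constructor
  · rintro ⟨⟨h1, ⟨h2, h3⟩, h4⟩, h5⟩
    refine ⟨⟨⟨h2, h3⟩, ?_, h5⟩, h4⟩
    have h6 : 1 ≤ ‖z‖ ^ 2 := by nlinarith
    rw [← Complex.normSq_eq_norm_sq, Complex.normSq_apply] at h6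
    by_contra hcon
    push Not at hcon
    nlinarith
  · rintro ⟨⟨⟨h2, h3⟩, h1, h5⟩, h4⟩
    exact ⟨⟨by linarith, ⟨h2, h3⟩, h4⟩, h5⟩

lemma KY_compact (Y : ℝ) : IsCompact (KY Y) := by
  rw [KY_eq]
  exact (isCompact_Icc.reProdIm isCompact_Icc).inter_right (isClosed_le continuous_const continuous_norm)

lemma FD_meas : MeasurableSet FD :=
  (isOpen_lt continuous_const Complex.continuous_im).measurableSet.inter
    ((isClosed_le (continuous_abs.comp Complex.continuous_re) continuous_const).measurableSet.inter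
      (isClosed_le continuous_const continuous_norm).measurableSet)

lemma KY_sub (Y : ℝ) : KY Y ⊆ {z : ℂ | 0 < z.im} := fun _ hz => hz.1.1

lemma cont_div {E : Set ℂ} (hE : E ⊆ {z : ℂ | 0 < z.im}) {g : ℂ → ℂ} (hg : ContinuousOn g E) :
    ContinuousOn (fun z => g z / (z.im : ℂ) ^ 2) E := by
  apply hg.div
  · exact (Complex.continuous_ofReal.comp Complex.continuous_im).continuousOn.pow 2
  · intro z hz
    have h0 : 0 < z.im := hE hz
    exact pow_ne_zero 2 (by exact_mod_cast h0.ne')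

lemma integrable_L {ψ : ℂ → ℝ} (hψ : Test ψ) {g : ℂ → ℂ} (hg : ContinuousOn g {z : ℂ | 0 < z.im}) :
    IntegrableOn (fun z => (ψ z : ℂ) * g z / (z.im : ℂ) ^ 2) FD := by
  obtain ⟨Y, hY⟩ := hψ.cusp
  have h1 : IntegrableOn (fun z => (ψ z : ℂ) * g z / (z.im : ℂ) ^ 2) (KY Y) := by
    refine ContinuousOn.integrableOn_compact (KY_compact Y) ?_
    apply cont_div (KY_sub Y)
    apply ContinuousOn.mul _ (hg.mono (KY_sub Y))
    exact Complex.continuous_ofReal.comp_continuousOn ((hψ.smooth 0).continuousOn.mono (KY_sub Y))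
  refine h1.of_forall_sdiff_eq_zero FD_meas ?_
  rintro z ⟨hz1, hz2⟩
  have : Y ≤ z.im := by
    by_contra hcon
    push Not at hcon
    exact hz2 ⟨hz1, hcon.le⟩
  simp [hY z this]

/-- the functional -/
noncomputable def LL {I : ℕ} (ψ : ℂ → ℝ) (f : Fin I → ℂ → ℝ) (Φ : (Fin I → ℝ) → ℂ) : ℂ :=
  ∫ z in FD, (ψ z : ℂ) * Φ (fun i => f i z) / (z.im : ℂ) ^ 2

/-- the mass of a test function -/
noncomputable def mass (ψ : ℂ → ℝ) : ℂ := ∫ z in FD, (ψ z : ℂ) / (z.im : ℂ) ^ 2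

lemma comp_cont {I : ℕ} {f : Fin I → ℂ → ℝ} (hf : ∀ i, ContinuousOn (f i) {z : ℂ | 0 < z.im})
    {Φ : (Fin I → ℝ) → ℂ} (hΦ : Continuous Φ) : ContinuousOn (fun z => Φ fun i => f i z) {z : ℂ | 0 < z.im} :=
  hΦ.comp_continuousOn (continuousOn_pi.2 hf)

lemma LL_add {I : ℕ} {ψ : ℂ → ℝ} (hψ : Test ψ) {f : Fin I → ℂ → ℝ} (hf : ∀ i, ContinuousOn (f i) {z : ℂ | 0 < z.im})
    {Φ Φ' : (Fin I → ℝ) → ℂ} (hΦ : Continuous Φ) (hΦ' : Continuous Φ') :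
    LL ψ f (fun x => Φ x + Φ' x) = LL ψ f Φ + LL ψ f Φ' := by
  unfold LL
  rw [← integral_add (integrable_L hψ (comp_cont hf hΦ)) (integrable_L hψ (comp_cont hf hΦ'))]
  congr 1
  funext z
  ring

lemma LL_smul {I : ℕ} {ψ : ℂ → ℝ} {f : Fin I → ℂ → ℝ} (c : ℂ) {Φ : (Fin I → ℝ) → ℂ} :
    LL ψ f (fun x => c * Φ x) = c * LL ψ f Φ := by
  unfold LL
  rw [← integral_const_mul]
  congr 1
  funext z
  ring

/-- admissible classes of families -/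
structure Good {I : ℕ} (Fam : ℝ → (Fin I → ℂ → ℝ) → Prop) : Prop where
  mono : ∀ T T' f, T ≤ T' → Fam T' f → Fam T f
  cont : ∀ T f, Fam T f → ∀ i, ContinuousOn (f i) {z : ℂ | 0 < z.im}

/-- convergence to the Gaussian value -/
def Conv {I : ℕ} (Fam : ℝ → (Fin I → ℂ → ℝ) → Prop) (Φ : (Fin I → ℝ) → ℂ) : Prop :=
  Continuous Φ ∧ Integrable Φ (G I) ∧ ∀ ψ : ℂ → ℝ, Test ψ → ∀ ε : ℝ, 0 < ε → ∃ T : ℝ, ∀ f, Fam T f →
    ‖LL ψ f Φ - mass ψ * ∫ x, Φ x ∂(G I)‖ < ε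

variable {I : ℕ} {Fam : ℝ → (Fin I → ℂ → ℝ) → Prop}

lemma Conv.add (hF : Good Fam) {Φ Φ' : (Fin I → ℝ) → ℂ} (h : Conv Fam Φ) (h' : Conv Fam Φ') :
    Conv Fam (fun x => Φ x + Φ' x) := by
  refine ⟨h.1.add h'.1, h.2.1.add h'.2.1, fun ψ hψ ε hε => ?_⟩
  obtain ⟨T, hT⟩ := h.2.2 ψ hψ (ε / 2) (by positivity)
  obtain ⟨T', hT'⟩ := h'.2.2 ψ hψ (ε / 2) (by positivity)
  refine ⟨max T T', fun f hf => ?_⟩
  have h1 := hT f (hF.mono _ _ f (le_max_left _ _) hf)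
  have h2 := hT' f (hF.mono _ _ f (le_max_right _ _) hf)
  rw [LL_add hψ (hF.cont _ f hf) h.1 h'.1, integral_add h.2.1 h'.2.1]
  have e : LL ψ f Φ + LL ψ f Φ' - mass ψ * (∫ x, Φ x ∂(G I) + ∫ x, Φ' x ∂(G I)) =
      (LL ψ f Φ - mass ψ * ∫ x, Φ x ∂(G I)) + (LL ψ f Φ' - mass ψ * ∫ x, Φ' x ∂(G I)) := by ring
  rw [e]
  exact (norm_add_le _ _).trans_lt (by linarith)

lemma Conv.smul (c : ℂ) {Φ : (Fin I → ℝ) → ℂ} (h : Conv Fam Φ) : Conv Fam (fun x => c * Φ x) := by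
  refine ⟨continuous_const.mul h.1, h.2.1.const_mul c, fun ψ hψ ε hε => ?_⟩
  obtain ⟨T, hT⟩ := h.2.2 ψ hψ (ε / (‖c‖ + 1)) (by positivity)
  refine ⟨T, fun f hf => ?_⟩
  have h1 := hT f hf
  rw [LL_smul, integral_const_mul]
  have e : c * LL ψ f Φ - mass ψ * (c * ∫ x, Φ x ∂(G I)) = c * (LL ψ f Φ - mass ψ * ∫ x, Φ x ∂(G I)) := by ring
  rw [e, norm_mul]
  rw [lt_div_iff₀ (by positivity)] at h1
  have h2 : 0 ≤ ‖LL ψ f Φ - mass ψ * ∫ x, Φ x ∂(G I)‖ := norm_nonneg _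
  nlinarith

lemma Conv.zero : Conv Fam (fun _ : Fin I → ℝ => (0 : ℂ)) := by
  refine ⟨continuous_const, integrable_zero _ _ _, fun ψ hψ ε hε => ⟨0, fun f _ => ?_⟩⟩
  simp [LL, hε]

lemma Conv.sum (hF : Good Fam) {ι : Type*} (s : Finset ι) {Φ : ι → (Fin I → ℝ) → ℂ} (h : ∀ i ∈ s, Conv Fam (Φ i)) :
    Conv Fam (fun x => ∑ i ∈ s, Φ i x) := by
  classical
  induction s using Finset.induction_on with
  | empty => simpa using Conv.zero
  | insert i s hi ih =>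
    simp_rw [Finset.sum_insert hi]
    exact (h i (Finset.mem_insert_self _ _)).add hF (ih fun j hj => h j (Finset.mem_insert_of_mem hj))

lemma Conv.congr {Φ Φ' : (Fin I → ℝ) → ℂ} (h : Conv Fam Φ) (e : ∀ x, Φ' x = Φ x) : Conv Fam Φ' := by
  have : Φ' = Φ := funext e
  rw [this]
  exact h

/-- a bound for the functional -/
lemma LL_bound {ψ : ℂ → ℝ} (hψ : Test ψ) : ∃ Y M : ℝ, 0 ≤ M ∧ ∀ f : Fin I → ℂ → ℝ,
    (∀ i, ContinuousOn (f i) {z : ℂ | 0 < z.im}) → ∀ Φ : (Fin I → ℝ) → ℂ, Continuous Φ →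
      ‖LL ψ f Φ‖ ≤ M * ∫ z in KY Y, ‖Φ fun i => f i z‖ / z.im ^ 2 := by
  obtain ⟨Y, hY⟩ := hψ.cusp
  obtain ⟨M, hM⟩ : ∃ M : ℝ, ∀ z ∈ KY Y, |ψ z| ≤ M := by
    obtain ⟨M, hM⟩ := (KY_compact Y).exists_bound_of_continuousOn ((hψ.smooth 0).continuousOn.mono (KY_sub Y))
    exact ⟨M, hM⟩
  refine ⟨Y, max M 0, le_max_right _ _, fun f hf Φ hΦ => ?_⟩
  have e : LL ψ f Φ = ∫ z in KY Y, (ψ z : ℂ) * Φ (fun i => f i z) / (z.im : ℂ) ^ 2 := by
    unfold LL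
    refine setIntegral_eq_of_subset_of_forall_sdiff_eq_zero FD_meas Set.inter_subset_left ?_
    rintro z ⟨hz1, hz2⟩
    have : Y ≤ z.im := by
      by_contra hcon
      push Not at hcon
      exact hz2 ⟨hz1, hcon.le⟩
    simp [hY z this]
  rw [e, ← integral_const_mul]
  have hc : ContinuousOn (fun z => ‖Φ fun i => f i z‖ / z.im ^ 2) (KY Y) := by
    have h1 := (cont_div (KY_sub Y) ((comp_cont hf hΦ).mono (KY_sub Y))).norm
    refine h1.congr fun z _ => ?_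
    simp
  refine norm_integral_le_of_norm_le ((hc.integrableOn_compact (KY_compact Y)).const_mul _) ?_
  refine (ae_restrict_iff' (KY_compact Y).isClosed.measurableSet).2 (Eventually.of_forall fun z hz => ?_)
  rw [norm_div, norm_mul, Complex.norm_real, Real.norm_eq_abs, norm_pow, Complex.norm_real, Real.norm_eq_abs, sq_abs,
    ← mul_div_assoc]
  gcongr
  exact (hM z hz).trans (le_max_left _ _)

end Pool.Agent.Q30.JL
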