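import Mathlib

set_option autoImplicit false

/-!
Standard Gaussian vectors: moments, characteristic function, Taylor polynomials of the exponential.
-/

open MeasureTheory ProbabilityTheory Filter Topology

namespace Pool.Agent.Q30.JL

/-- the Taylor polynomial of order `m` -/
noncomputable def tay (m : ℕ) (w : ℂ) : ℂ := ∑ k ∈ Finset.range m, w ^ k / (k.factorial : ℂ)

lemma tay_deriv (m : ℕ) (c : ℂ) (t : ℝ) :
    HasDerivAt (fun t : ℝ => Complex.exp (c * t) - tay (m + 1) (c * t)) (c * (Complex.exp (c * t) - tay m (c * t))) t := by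
  have h0 : HasDerivAt (fun t : ℝ => c * (t : ℂ)) c t := by
    simpa using (Complex.ofRealCLM.hasDerivAt (x := t)).const_mul c
  have h1 : HasDerivAt (fun t : ℝ => Complex.exp (c * t)) (Complex.exp (c * t) * c) t := h0.cexp
  have h2 : HasDerivAt (fun t : ℝ => tay (m + 1) (c * t)) (c * tay m (c * t)) t := by
    unfold tay
    have h3 : HasDerivAt (fun t : ℝ => ∑ k ∈ Finset.range (m + 1), (c * (t : ℂ)) ^ k / (k.factorial : ℂ))
        (∑ k ∈ Finset.range (m + 1), ((k : ℂ) * (c * t) ^ (k - 1) * c) / (k.factorial : ℂ)) t := by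
      apply HasDerivAt.fun_sum
      intro k _
      exact (h0.fun_pow k).div_const _
    convert h3 using 1
    rw [Finset.sum_range_succ', Finset.mul_sum]
    simp only [Nat.cast_zero, zero_mul, zero_div, add_zero, Nat.add_sub_cancel]
    refine Finset.sum_congr rfl fun k _ => ?_
    rw [Nat.factorial_succ]
    have : (k.factorial : ℂ) ≠ 0 := by exact_mod_cast k.factorial_ne_zero
    have : ((k : ℂ) + 1) ≠ 0 := by exact_mod_cast k.succ_ne_zero
    push_cast
    field_simp
  exact (h1.sub h2).congr_deriv (by ring)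

lemma tay_le' {c : ℂ} (hc : c.re = 0) (m : ℕ) : ∀ t : ℝ, 0 ≤ t →
    ‖Complex.exp (c * t) - tay m (c * t)‖ ≤ ‖c‖ ^ m * t ^ m / m.factorial := by
  induction m with
  | zero =>
    intro t _
    simp only [tay, Finset.range_zero, Finset.sum_empty, sub_zero, pow_zero, Nat.factorial_zero, Nat.cast_one, mul_one,
      div_one, Complex.norm_exp]
    simp [hc]
  | succ m ih =>
    intro t ht
    have key := image_norm_le_of_norm_deriv_right_le_deriv_boundary
      (f := fun t : ℝ => Complex.exp (c * t) - tay (m + 1) (c * t))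
      (f' := fun t : ℝ => c * (Complex.exp (c * t) - tay m (c * t))) (a := 0) (b := t)
      (B := fun t => ‖c‖ ^ (m + 1) * t ^ (m + 1) / ((m + 1).factorial : ℝ))
      (B' := fun t => ‖c‖ ^ (m + 1) * t ^ m / (m.factorial : ℝ)) ?_ ?_ ?_ ?_ ?_
    · exact key (Set.right_mem_Icc.2 ht)
    · exact fun s _ => (tay_deriv m c s).continuousAt.continuousWithinAt
    · exact fun s _ => (tay_deriv m c s).hasDerivWithinAt
    · simp only [tay, Complex.ofReal_zero, mul_zero, Complex.exp_zero]
      rw [Finset.sum_range_succ']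
      simp
    · intro s
      have h1 : HasDerivAt (fun t : ℝ => t ^ (m + 1)) (((m + 1 : ℕ) : ℝ) * s ^ m) s := by
        simpa using hasDerivAt_pow (m + 1) s
      have h2 := (h1.const_mul (‖c‖ ^ (m + 1))).div_const ((m + 1).factorial : ℝ)
      refine h2.congr_deriv ?_
      rw [Nat.factorial_succ]
      have : (m.factorial : ℝ) ≠ 0 := by exact_mod_cast m.factorial_ne_zero
      have : ((m : ℝ) + 1) ≠ 0 := by positivity
      push_cast
      field_simp
    · intro s hs
      rw [norm_mul]
      calc ‖c‖ * ‖Complex.exp (c * s) - tay m (c * s)‖ ≤ ‖c‖ * (‖c‖ ^ m * s ^ m / m.factorial) := by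
            gcongr
            exact ih s hs.1
        _ = _ := by ring

/-- `|exp (i u) - ∑_{k < m} (i u)^k / k!| ≤ |u|^m / m!` -/
lemma tay_le (u : ℝ) (m : ℕ) : ‖Complex.exp (u * Complex.I) - tay m (u * Complex.I)‖ ≤ |u| ^ m / m.factorial := by
  have h := tay_le' (c := (u : ℂ) * Complex.I) (by simp) m 1 zero_le_one
  simpa using h

/-- the standard Gaussian measure -/
noncomputable def G (I : ℕ) : Measure (Fin I → ℝ) := Measure.pi fun _ => gaussianReal 0 1

instance (I : ℕ) : IsProbabilityMeasure (G I) := by unfold G; infer_instance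

/-- the scalar product -/
def dot {I : ℕ} (ξ x : Fin I → ℝ) : ℝ := ∑ i, ξ i * x i

lemma dot_cont {I : ℕ} (ξ : Fin I → ℝ) : Continuous (dot ξ) := by unfold dot; fun_prop

lemma int_exp_abs (L : ℝ) : Integrable (fun x : ℝ => Real.exp (L * |x|)) (gaussianReal 0 1) := by
  have h1 := (integrable_exp_mul_gaussianReal (μ := 0) (v := 1) L).add
    (integrable_exp_mul_gaussianReal (μ := 0) (v := 1) (-L))
  refine h1.mono' (by fun_prop) (Eventually.of_forall fun x => ?_)
  rw [Real.norm_of_nonneg (Real.exp_pos _).le]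
  simp only [Pi.add_apply]
  rcases abs_cases x with ⟨h, _⟩ | ⟨h, _⟩
  · rw [h]; linarith [Real.exp_pos (-L * x)]
  · rw [h, mul_neg, ← neg_mul]; linarith [Real.exp_pos (L * x)]

lemma int_pow (n : ℕ) : Integrable (fun x : ℝ => x ^ n) (gaussianReal 0 1) := by
  refine ((int_exp_abs 1).const_mul (n.factorial : ℝ)).mono' (by fun_prop) (Eventually.of_forall fun x => ?_)
  rw [norm_pow, Real.norm_eq_abs, one_mul]
  have h := Real.pow_div_factorial_le_exp |x| (abs_nonneg x) n
  rw [div_le_iff₀ (by positivity)] at h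
  linarith

/-- monomials -/
def mon {I : ℕ} (a : Fin I → ℕ) (x : Fin I → ℝ) : ℝ := ∏ i, x i ^ a i

lemma mon_cont {I : ℕ} (a : Fin I → ℕ) : Continuous (mon a) := by unfold mon; fun_prop

lemma mon_int {I : ℕ} (a : Fin I → ℕ) : Integrable (mon a) (G I) := by
  unfold mon G
  exact Integrable.fintype_prod (f := fun i (x : ℝ) => x ^ a i) fun i => int_pow (a i)

lemma mon_integral {I : ℕ} (a : Fin I → ℕ) : ∫ x, mon a x ∂(G I) = ∏ i, ∫ x, x ^ a i ∂(gaussianReal 0 1) := by
  unfold mon G
  exact integral_fintype_prod_eq_prod (fun i (x : ℝ) => x ^ a i)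

lemma exp_int {I : ℕ} (ξ : Fin I → ℝ) : Integrable (fun x => Real.exp (4 * |dot ξ x|)) (G I) := by
  have h1 : Integrable (fun x : Fin I → ℝ => ∏ i, Real.exp (4 * |ξ i| * |x i|)) (G I) := by
    unfold G
    exact Integrable.fintype_prod (f := fun i (x : ℝ) => Real.exp (4 * |ξ i| * |x|)) fun i => int_exp_abs _
  refine h1.mono' ?_ (Eventually.of_forall fun x => ?_)
  · exact (Continuous.aestronglyMeasurable (by unfold dot; fun_prop))
  · rw [Real.norm_of_nonneg (Real.exp_pos _).le, ← Real.exp_sum]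
    apply Real.exp_le_exp.2
    calc 4 * |dot ξ x| ≤ 4 * ∑ i, |ξ i * x i| := by
          gcongr
          exact Finset.abs_sum_le_sum_abs _ _
      _ = ∑ i, 4 * |ξ i| * |x i| := by
          rw [Finset.mul_sum]
          refine Finset.sum_congr rfl fun i _ => ?_
          rw [abs_mul]; ring

lemma dot_pow_int {I : ℕ} (ξ : Fin I → ℝ) (n : ℕ) : Integrable (fun x => dot ξ x ^ n) (G I) := by
  refine ((exp_int ξ).const_mul (n.factorial : ℝ)).mono' ((dot_cont ξ).pow n).aestronglyMeasurable
    (Eventually.of_forall fun x => ?_)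
  rw [norm_pow, Real.norm_eq_abs]
  have h := Real.pow_div_factorial_le_exp |dot ξ x| (abs_nonneg _) n
  rw [div_le_iff₀ (by positivity)] at h
  have h2 : Real.exp |dot ξ x| ≤ Real.exp (4 * |dot ξ x|) := by
    apply Real.exp_le_exp.2
    linarith [abs_nonneg (dot ξ x)]
  have h3 : (0 : ℝ) ≤ n.factorial := by positivity
  nlinarith

/-- the characteristic function -/
lemma charG {I : ℕ} (ξ : Fin I → ℝ) : ∫ x, Complex.exp (dot ξ x * Complex.I) ∂(G I) =
    Complex.exp (-(((∑ i, ξ i ^ 2 : ℝ) : ℂ) / 2)) := by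
  have e : ∀ x : Fin I → ℝ, Complex.exp (dot ξ x * Complex.I) = ∏ i, Complex.exp ((ξ i * x i : ℝ) * Complex.I) := by
    intro x
    rw [← Complex.exp_sum]
    congr 1
    unfold dot
    push_cast
    rw [Finset.sum_mul]
  simp_rw [e]
  unfold G
  rw [integral_fintype_prod_eq_prod (fun i (x : ℝ) => Complex.exp ((ξ i * x : ℝ) * Complex.I))]
  have e2 : ∀ i, ∫ x : ℝ, Complex.exp ((ξ i * x : ℝ) * Complex.I) ∂(gaussianReal 0 1) =
      Complex.exp (-((ξ i : ℂ) ^ 2 / 2)) := by
    intro i
    have h := charFun_gaussianReal (μ := 0) (v := 1) (ξ i)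
    rw [charFun_apply_real] at h
    simp only [NNReal.coe_one, Complex.ofReal_zero, mul_zero, zero_mul, zero_sub, one_mul, Complex.ofReal_one] at h
    rw [← h]
    congr 1
    funext x
    push_cast
    ring_nf
  simp_rw [e2]
  rw [← Complex.exp_sum]
  congr 1
  push_cast
  rw [Finset.sum_neg_distrib, Finset.sum_div]

/-- the coefficients `E (ξ·g)^(2m) / (m!)²` tend to zero -/
lemma sm_tendsto {I : ℕ} (ξ : Fin I → ℝ) :
    Tendsto (fun m : ℕ => (∫ x, dot ξ x ^ (2 * m) ∂(G I)) / (m.factorial : ℝ) ^ 2) atTop (𝓝 0) := by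
  set E : ℝ := ∫ x, Real.exp (4 * |dot ξ x|) ∂(G I) with hE
  have hE0 : 0 ≤ E := integral_nonneg fun x => (Real.exp_pos _).le
  have hb : ∀ m : ℕ, (∫ x, dot ξ x ^ (2 * m) ∂(G I)) / (m.factorial : ℝ) ^ 2 ≤ E * (1 / 4) ^ m := by
    intro m
    have h1 : ∫ x, dot ξ x ^ (2 * m) ∂(G I) ≤ ∫ x, ((2 * m).factorial / 16 ^ m : ℝ) * Real.exp (4 * |dot ξ x|) ∂(G I) := by
      apply integral_mono (dot_pow_int ξ _) ((exp_int ξ).const_mul _)
      intro x
      have h := Real.pow_div_factorial_le_exp (4 * |dot ξ x|) (by positivity) (2 * m)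
      rw [div_le_iff₀ (by positivity), mul_pow, (even_two_mul m).pow_abs] at h
      have e4 : (4 : ℝ) ^ (2 * m) = 16 ^ m := by rw [pow_mul]; norm_num
      rw [e4] at h
      show dot ξ x ^ (2 * m) ≤ (2 * m).factorial / 16 ^ m * Real.exp (4 * |dot ξ x|)
      rw [div_mul_eq_mul_div, le_div_iff₀ (by positivity)]
      linarith
    rw [integral_const_mul, ← hE] at h1
    rw [div_le_iff₀ (by positivity)]
    refine h1.trans ?_
    have h2 : ((2 * m).factorial : ℝ) ≤ 4 ^ m * (m.factorial : ℝ) ^ 2 := by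
      have h3 := Nat.centralBinom_eq_two_mul_choose m
      have h4 : (2 * m).choose m * m.factorial * m.factorial = (2 * m).factorial := by
        have := Nat.choose_mul_factorial_mul_factorial (n := 2 * m) (k := m) (by omega)
        rwa [show 2 * m - m = m by omega] at this
      have h5 : (2 * m).choose m ≤ 4 ^ m := by
        have h6 := Nat.choose_le_two_pow (2 * m) m
        rwa [pow_mul] at h6
      calc ((2 * m).factorial : ℝ) = ((2 * m).choose m * m.factorial * m.factorial : ℕ) := by rw [h4]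
        _ = ((2 * m).choose m : ℝ) * (m.factorial : ℝ) ^ 2 := by push_cast; ring
        _ ≤ 4 ^ m * (m.factorial : ℝ) ^ 2 := by
            gcongr
            exact_mod_cast h5
    calc (2 * m).factorial / 16 ^ m * E ≤ (4 ^ m * (m.factorial : ℝ) ^ 2) / 16 ^ m * E := by gcongr
      _ = E * (1 / 4) ^ m * (m.factorial : ℝ) ^ 2 := by
          have e16 : (16 : ℝ) ^ m = 4 ^ m * 4 ^ m := by rw [← mul_pow]; norm_num
          have e14 : (1 / 4 : ℝ) ^ m = 1 / 4 ^ m := by rw [div_pow, one_pow]
          rw [e16, e14]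
          field_simp
  have hlim : Tendsto (fun m : ℕ => E * (1 / 4 : ℝ) ^ m) atTop (𝓝 0) := by
    simpa using (tendsto_pow_atTop_nhds_zero_of_lt_one (by norm_num : (0 : ℝ) ≤ 1 / 4) (by norm_num)).const_mul E
  refine squeeze_zero (fun m => ?_) hb hlim
  apply div_nonneg _ (by positivity)
  apply integral_nonneg
  intro x
  exact (even_two_mul m).pow_nonneg _

lemma norm_pow_int {I : ℕ} (n : ℕ) : Integrable (fun x : Fin I → ℝ => ‖x‖ ^ n) (G I) := by
  have h1 : Integrable (fun x : Fin I → ℝ => 1 + ∑ i, |x i| ^ n) (G I) := by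
    apply (integrable_const _).add
    apply integrable_finsetSum
    intro i _
    have h2 : Integrable (fun x : ℝ => |x| ^ n) (gaussianReal 0 1) := by
      refine (int_pow n).norm.congr (Eventually.of_forall fun x => ?_)
      simp
    exact (measurePreserving_eval (fun _ : Fin I => gaussianReal 0 1) i).integrable_comp_of_integrable h2
  refine h1.mono' (by fun_prop) (Eventually.of_forall fun x => ?_)
  rw [norm_pow, norm_norm]
  rcases isEmpty_or_nonempty (Fin I) with hI | hI
  · have : ‖x‖ = 0 := by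
      rw [Subsingleton.elim x 0, norm_zero]
    rw [this]
    have : (0 : ℝ) ^ n ≤ 1 := by
      rcases Nat.eq_zero_or_pos n with rfl | h
      · simp
      · rw [zero_pow h.ne']; norm_num
    have : 0 ≤ ∑ i, |x i| ^ n := Finset.sum_nonneg fun i _ => by positivity
    linarith
  · obtain ⟨i, hi⟩ : ∃ i, ‖x‖ = ‖x i‖ := by
      obtain ⟨i, hi⟩ := Finite.exists_max fun i => ‖x i‖
      refine ⟨i, le_antisymm ((pi_norm_le_iff_of_nonneg (norm_nonneg _)).2 hi) (norm_le_pi_norm x i)⟩
    rw [hi, Real.norm_eq_abs]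
    have := Finset.single_le_sum (f := fun i => |x i| ^ n) (fun i _ => by positivity) (Finset.mem_univ i)
    linarith

end Pool.Agent.Q30.JL
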