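import Pool.Agent.Q30.JL.Conv

set_option autoImplicit false

/-!
From characteristic functions and bounded moments to moments.
-/

open MeasureTheory ProbabilityTheory Filter Topology

namespace Pool.Agent.Q30.JL

variable {I : ℕ} {Fam : ℝ → (Fin I → ℂ → ℝ) → Prop}

/-- the character -/
noncomputable def ee (ξ x : Fin I → ℝ) : ℂ := Complex.exp (dot ξ x * Complex.I)

lemma ee_cont (ξ : Fin I → ℝ) : Continuous (ee ξ) := by
  unfold ee
  have := dot_cont ξ
  fun_prop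

lemma dot_add (ξ η x : Fin I → ℝ) : dot (ξ + η) x = dot ξ x + dot η x := by
  unfold dot
  simp only [Pi.add_apply, add_mul, Finset.sum_add_distrib]

lemma ee_add (ξ η x : Fin I → ℝ) : ee (ξ + η) x = ee ξ x * ee η x := by
  unfold ee
  rw [dot_add, ← Complex.exp_add]
  push_cast
  ring_nf

lemma ee_zero (x : Fin I → ℝ) : ee 0 x = 1 := by simp [ee, dot]

lemma dot_single (h : ℝ) (i : Fin I) (x : Fin I → ℝ) : dot (Pi.single i h) x = h * x i := by
  unfold dot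
  rw [Finset.sum_eq_single i]
  · simp
  · intro j _ hj
    simp [Pi.single_eq_of_ne hj]
  · simp

/-- all the products with characters converge -/
def QQ (Fam : ℝ → (Fin I → ℂ → ℝ) → Prop) (Φ : (Fin I → ℝ) → ℂ) : Prop := ∀ ξ, Conv Fam (fun x => ee ξ x * Φ x)

/-- multiplication by `Θ` preserves `QQ` -/
def RR (Fam : ℝ → (Fin I → ℂ → ℝ) → Prop) (Θ : (Fin I → ℝ) → ℂ) : Prop := ∀ Φ, QQ Fam Φ → QQ Fam (fun x => Θ x * Φ x)

lemma RR.mul {Θ Θ' : (Fin I → ℝ) → ℂ} (h : RR Fam Θ) (h' : RR Fam Θ') : RR Fam (Θ * Θ') := by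
  intro Φ hΦ ξ
  refine (h _ (h' Φ hΦ) ξ).congr fun x => ?_
  simp only [Pi.mul_apply]
  ring

lemma RR.one : RR Fam (1 : (Fin I → ℝ) → ℂ) := by
  intro Φ hΦ ξ
  refine (hΦ ξ).congr fun x => ?_
  simp

lemma RR.pow {Θ : (Fin I → ℝ) → ℂ} (h : RR Fam Θ) (n : ℕ) : RR Fam (Θ ^ n) := by
  induction n with
  | zero => rw [pow_zero]; exact RR.one
  | succ n ih => rw [pow_succ]; exact ih.mul h

lemma RR.prod {s : Finset (Fin I)} {Θ : Fin I → (Fin I → ℝ) → ℂ} (h : ∀ i ∈ s, RR Fam (Θ i)) :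
    RR Fam (∏ i ∈ s, Θ i) :=
  Finset.prod_induction Θ (RR Fam) (fun _ _ h1 h2 => h1.mul h2) RR.one h

/-- difference quotients -/
noncomputable def dq (h : ℝ) (i : Fin I) (x : Fin I → ℝ) : ℂ :=
  (1 / ((h : ℂ) * Complex.I)) * (Complex.exp ((h * x i : ℝ) * Complex.I) - 1)

lemma RR.dq (hF : Good Fam) (h : ℝ) (i : Fin I) : RR Fam (dq h i) := by
  intro Φ hΦ ξ
  have h1 := (hΦ (ξ + Pi.single i h)).add hF ((hΦ ξ).smul (-1))
  refine (h1.smul (1 / ((h : ℂ) * Complex.I))).congr fun x => ?_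
  rw [ee_add]
  have e : ee (Pi.single i h) x = Complex.exp ((h * x i : ℝ) * Complex.I) := by
    unfold ee
    rw [dot_single]
  rw [e]
  unfold Pool.Agent.Q30.JL.dq
  ring

/-- the product of the difference quotients -/
noncomputable def dd (h : ℝ) (a : Fin I → ℕ) (x : Fin I → ℝ) : ℂ := ∏ i, dq h i x ^ a i

lemma conv_dd (hF : Good Fam) (hlaw : ∀ ξ, Conv Fam (ee ξ)) (h : ℝ) (a : Fin I → ℕ) : Conv Fam (dd h a) := by
  have h1 : RR Fam (∏ i, dq h i ^ a i) := RR.prod fun i _ => (RR.dq hF h i).pow (a i)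
  have h2 : QQ Fam (1 : (Fin I → ℝ) → ℂ) := fun ξ => (hlaw ξ).congr fun x => by simp
  refine (h1 _ h2 0).congr fun x => ?_
  rw [ee_zero]
  unfold dd
  simp

lemma dq_le {h : ℝ} (hh : 0 < h) (i : Fin I) (x : Fin I → ℝ) : ‖dq h i x‖ ≤ |x i| := by
  have h1 := tay_le (h * x i) 1
  simp only [tay, Finset.range_one, Finset.sum_singleton, pow_zero, Nat.factorial_zero, Nat.cast_one, div_one, pow_one,
    Nat.factorial_one] at h1
  unfold dq
  rw [norm_mul, norm_div, norm_one, norm_mul, Complex.norm_I, mul_one, Complex.norm_real, Real.norm_of_nonneg hh.le,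
    one_div_mul_eq_div, div_le_iff₀ hh]
  refine h1.trans (le_of_eq ?_)
  rw [abs_mul, abs_of_pos hh, mul_comm]

lemma dq_sub {h : ℝ} (hh : 0 < h) (i : Fin I) (x : Fin I → ℝ) : ‖dq h i x - x i‖ ≤ h * |x i| * |x i| := by
  have h1 := tay_le (h * x i) 2
  simp only [tay, Finset.sum_range_succ, Finset.range_zero, Finset.sum_empty, pow_zero, Nat.factorial_zero,
    Nat.cast_one, div_one, zero_add, pow_one, Nat.factorial_one, Nat.factorial_two, Nat.cast_ofNat] at h1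
  have hc : (h : ℂ) ≠ 0 := by exact_mod_cast hh.ne'
  have e : dq h i x - x i = (1 / ((h : ℂ) * Complex.I)) *
      (Complex.exp ((h * x i : ℝ) * Complex.I) - (1 + ((h * x i : ℝ) : ℂ) * Complex.I)) := by
    unfold dq
    have hI := Complex.I_ne_zero
    push_cast
    field_simp
    ring
  rw [e, norm_mul, norm_div, norm_one, norm_mul, Complex.norm_I, mul_one, Complex.norm_real, Real.norm_of_nonneg hh.le,
    one_div_mul_eq_div, div_le_iff₀ hh]
  refine h1.trans ?_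
  rw [abs_mul, abs_of_pos hh]
  have : 0 ≤ (h * |x i|) ^ 2 := sq_nonneg _
  nlinarith

lemma pow_diff {z w : ℂ} {S δ : ℝ} (hz : ‖z‖ ≤ S) (hw : ‖w‖ ≤ S) (hd : ‖z - w‖ ≤ δ * S) (hδ : 0 ≤ δ) (n : ℕ) :
    ‖z ^ n - w ^ n‖ ≤ n * δ * S ^ n := by
  have hS : 0 ≤ S := (norm_nonneg _).trans hz
  induction n with
  | zero => simp
  | succ n ih =>
    have e : z ^ (n + 1) - w ^ (n + 1) = (z - w) * z ^ n + w * (z ^ n - w ^ n) := by ring
    rw [e]
    refine (norm_add_le _ _).trans ?_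
    rw [norm_mul, norm_mul, norm_pow]
    calc ‖z - w‖ * ‖z‖ ^ n + ‖w‖ * ‖z ^ n - w ^ n‖ ≤ (δ * S) * S ^ n + S * (n * δ * S ^ n) := by gcongr
      _ = ((n + 1 : ℕ) : ℝ) * δ * S ^ (n + 1) := by push_cast; ring

lemma prod_diff {ι : Type*} (s : Finset ι) {z w : ι → ℂ} {S δ : ℝ} (hS : 0 ≤ S) (hz : ∀ i, ‖z i‖ ≤ S)
    (hw : ∀ i, ‖w i‖ ≤ S) (hd : ∀ i, ‖z i - w i‖ ≤ δ * S) (hδ : 0 ≤ δ) (a : ι → ℕ) :
    ‖∏ i ∈ s, z i ^ a i - ∏ i ∈ s, w i ^ a i‖ ≤ ((∑ i ∈ s, a i : ℕ) : ℝ) * δ * S ^ (∑ i ∈ s, a i) ∧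
      ‖∏ i ∈ s, w i ^ a i‖ ≤ S ^ (∑ i ∈ s, a i) := by
  classical
  induction s using Finset.induction_on with
  | empty => simp
  | insert i s hi ih =>
    obtain ⟨h1, h2⟩ := ih
    rw [Finset.prod_insert hi, Finset.prod_insert hi, Finset.sum_insert hi]
    constructor
    · have e : z i ^ a i * ∏ j ∈ s, z j ^ a j - w i ^ a i * ∏ j ∈ s, w j ^ a j =
          (z i ^ a i - w i ^ a i) * ∏ j ∈ s, w j ^ a j + z i ^ a i * (∏ j ∈ s, z j ^ a j - ∏ j ∈ s, w j ^ a j) := by ring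
      rw [e]
      refine (norm_add_le _ _).trans ?_
      rw [norm_mul, norm_mul, norm_pow]
      calc ‖z i ^ a i - w i ^ a i‖ * ‖∏ j ∈ s, w j ^ a j‖ + ‖z i‖ ^ a i * ‖∏ j ∈ s, z j ^ a j - ∏ j ∈ s, w j ^ a j‖
          ≤ (a i * δ * S ^ a i) * S ^ (∑ j ∈ s, a j) + S ^ a i * (((∑ j ∈ s, a j : ℕ) : ℝ) * δ * S ^ (∑ j ∈ s, a j)) := by
            gcongr
            · exact pow_diff (hz i) (hw i) (hd i) hδ _
            · exact hz i
        _ = _ := by push_cast; ring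
    · rw [norm_mul, norm_pow, pow_add]
      gcongr
      exact hw i

lemma dd_sub {h : ℝ} (hh : 0 < h) (a : Fin I → ℕ) (x : Fin I → ℝ) :
    ‖dd h a x - (mon a x : ℂ)‖ ≤ ((∑ i, a i : ℕ) : ℝ) * h * ‖x‖ ^ (∑ i, a i + 1) := by
  have h1 := (prod_diff Finset.univ (z := fun i => dq h i x) (w := fun i => (x i : ℂ)) (S := ‖x‖) (δ := h * ‖x‖)
    (norm_nonneg _) ?_ ?_ ?_ (by positivity) a).1
  · have e : (mon a x : ℂ) = ∏ i, (x i : ℂ) ^ a i := by unfold mon; push_cast; rfl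
    rw [e]
    refine h1.trans (le_of_eq ?_)
    ring
  · intro i
    exact (dq_le hh i x).trans (norm_le_pi_norm x i)
  · intro i
    rw [Complex.norm_real]
    exact norm_le_pi_norm x i
  · intro i
    refine (dq_sub hh i x).trans ?_
    have := norm_le_pi_norm x i
    rw [Real.norm_eq_abs] at this
    gcongr

lemma norm_pow_le_sum (n : ℕ) (x : Fin I → ℝ) : ‖x‖ ^ (n + 1) ≤ ∑ i, |x i| ^ (n + 1) := by
  rcases isEmpty_or_nonempty (Fin I) with hI | hI
  · have : ‖x‖ = 0 := by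
      rw [Subsingleton.elim x 0, norm_zero]
    rw [this, zero_pow (Nat.succ_ne_zero n)]
    exact Finset.sum_nonneg fun i _ => by positivity
  · obtain ⟨i, hi⟩ : ∃ i, ‖x‖ = ‖x i‖ := by
      obtain ⟨i, hi⟩ := Finite.exists_max fun i => ‖x i‖
      refine ⟨i, le_antisymm ((pi_norm_le_iff_of_nonneg (norm_nonneg _)).2 hi) (norm_le_pi_norm x i)⟩
    rw [hi, Real.norm_eq_abs]
    exact Finset.single_le_sum (f := fun i => |x i| ^ (n + 1)) (fun i _ => by positivity) (Finset.mem_univ i)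

/-- **Laws and bounded moments give moments.** -/
theorem conv_mon (hF : Good Fam) (hlaw : ∀ ξ, Conv Fam (ee ξ)) (a : Fin I → ℕ)
    (hmom : ∀ Y : ℝ, ∃ B : ℝ, ∀ T f, Fam T f → ∀ i, ∫ z in KY Y, |f i z| ^ (∑ i, a i + 1) / z.im ^ 2 ≤ B) :
    Conv Fam (fun x => (mon a x : ℂ)) := by
  set n : ℕ := ∑ i, a i with hn
  refine ⟨Complex.continuous_ofReal.comp (mon_cont a), (mon_int a).ofReal, fun ψ hψ ε hε => ?_⟩
  obtain ⟨Y, M, hM, hbd⟩ := LL_bound (I := I) hψ
  obtain ⟨B, hB⟩ := hmom Y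
  have hB0 : 0 ≤ |B| := abs_nonneg B
  set Ga : ℝ := ∫ x, ‖x‖ ^ (n + 1) ∂(G I) with hGa
  have hGa0 : 0 ≤ Ga := integral_nonneg fun x => by positivity
  set W : ℝ := n * (M * (I * |B|) + ‖mass ψ‖ * Ga) + 1 with hW
  have hWpos : 0 < W := by positivity
  set h : ℝ := ε / (4 * W) with hh
  have hh0 : 0 < h := by positivity
  have hhW : h * W = ε / 4 := by rw [hh]; field_simp
  obtain ⟨T, hT⟩ := (conv_dd hF hlaw h a).2.2 ψ hψ (ε / 2) (by positivity)
  refine ⟨T, fun f hf => ?_⟩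
  have hfc := hF.cont T f hf
  have hddc := (conv_dd hF hlaw h a).1
  have hmc : Continuous fun x : Fin I → ℝ => (mon a x : ℂ) := Complex.continuous_ofReal.comp (mon_cont a)
  -- the forms
  have h1 : ‖LL ψ f (fun x => (mon a x : ℂ)) - LL ψ f (dd h a)‖ ≤ h * (n * (M * (I * |B|))) := by
    have e : LL ψ f (fun x => (mon a x : ℂ)) - LL ψ f (dd h a) =
        LL ψ f (fun x => (mon a x : ℂ) + (-1) * dd h a x) := by
      rw [LL_add (Φ := fun x => (mon a x : ℂ)) (Φ' := fun x => (-1) * dd h a x) hψ hfc hmc (continuous_const.mul hddc),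
        LL_smul]
      ring
    rw [e]
    refine (hbd f hfc _ (hmc.add (continuous_const.mul hddc))).trans ?_
    have hint : ∀ g : ℂ → ℝ, ContinuousOn g {z : ℂ | 0 < z.im} → IntegrableOn (fun z => g z / z.im ^ 2) (KY Y) := by
      intro g hg
      refine ContinuousOn.integrableOn_compact (KY_compact Y) ?_
      apply (hg.mono (KY_sub Y)).div (Complex.continuous_im.pow 2).continuousOn
      intro z hz
      have h0 : 0 < z.im := KY_sub Y hz
      exact (pow_pos h0 2).ne'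
    have hcn : ∀ i, ContinuousOn (fun z => |f i z| ^ (n + 1)) {z : ℂ | 0 < z.im} := fun i => ((hfc i).abs).pow _
    have h2 : ∫ z in KY Y, ‖(mon a (fun i => f i z) : ℂ) + (-1) * dd h a (fun i => f i z)‖ / z.im ^ 2 ≤
        ∫ z in KY Y, (n * h) * (∑ i, |f i z| ^ (n + 1) / z.im ^ 2) := by
      apply setIntegral_mono_on
      · exact hint _ ((comp_cont hfc (hmc.add (continuous_const.mul hddc))).norm)
      · refine (integrable_finsetSum _ fun i _ => ?_).const_mul _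
        exact hint _ (hcn i)
      · exact (KY_compact Y).isClosed.measurableSet
      · intro z hz
        have h3 := dd_sub hh0 a (fun i => f i z)
        rw [← hn] at h3
        have h4 := norm_pow_le_sum n (fun i => f i z)
        have e3 : (mon a (fun i => f i z) : ℂ) + (-1) * dd h a (fun i => f i z) =
            -(dd h a (fun i => f i z) - (mon a (fun i => f i z) : ℂ)) := by ring
        rw [e3, norm_neg, ← Finset.sum_div, ← mul_div_assoc]
        gcongr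
        exact h3.trans (by gcongr)
    rw [integral_const_mul, integral_finsetSum _ fun i _ => hint _ (hcn i)] at h2
    have h5 : ∑ i, ∫ z in KY Y, |f i z| ^ (n + 1) / z.im ^ 2 ≤ I * |B| := by
      calc ∑ i, ∫ z in KY Y, |f i z| ^ (n + 1) / z.im ^ 2 ≤ ∑ _i : Fin I, |B| :=
            Finset.sum_le_sum fun i _ => (hB T f hf i).trans (le_abs_self B)
        _ = I * |B| := by simp
    calc M * ∫ z in KY Y, ‖(mon a (fun i => f i z) : ℂ) + (-1) * dd h a (fun i => f i z)‖ / z.im ^ 2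
        ≤ M * ((n * h) * (I * |B|)) := by
          gcongr
          exact h2.trans (by gcongr)
      _ = h * (n * (M * (I * |B|))) := by ring
  -- the Gaussian vector
  have h2 : ‖mass ψ * ∫ x, (mon a x : ℂ) ∂(G I) - mass ψ * ∫ x, dd h a x ∂(G I)‖ ≤ h * (n * (‖mass ψ‖ * Ga)) := by
    have hmi : Integrable (fun x => (mon a x : ℂ)) (G I) := (mon_int a).ofReal
    rw [← mul_sub, ← integral_sub hmi (conv_dd hF hlaw h a).2.1, norm_mul]
    have h3 : ‖∫ x, ((mon a x : ℂ) - dd h a x) ∂(G I)‖ ≤ ∫ x, (n * h) * ‖x‖ ^ (n + 1) ∂(G I) := by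
      refine norm_integral_le_of_norm_le ((norm_pow_int _).const_mul _) (Eventually.of_forall fun x => ?_)
      rw [norm_sub_rev]
      have := dd_sub hh0 a x
      rwa [← hn] at this
    rw [integral_const_mul, ← hGa] at h3
    calc ‖mass ψ‖ * ‖∫ x, ((mon a x : ℂ) - dd h a x) ∂(G I)‖ ≤ ‖mass ψ‖ * ((n * h) * Ga) := by gcongr
      _ = _ := by ring
  have h3 := hT f hf
  have e : LL ψ f (fun x => (mon a x : ℂ)) - mass ψ * ∫ x, (mon a x : ℂ) ∂(G I) =
      (LL ψ f (fun x => (mon a x : ℂ)) - LL ψ f (dd h a)) + (LL ψ f (dd h a) - mass ψ * ∫ x, dd h a x ∂(G I)) -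
        (mass ψ * ∫ x, (mon a x : ℂ) ∂(G I) - mass ψ * ∫ x, dd h a x ∂(G I)) := by ring
  rw [e]
  refine (norm_sub_le _ _).trans_lt ?_
  have h4 := norm_add_le (LL ψ f (fun x => (mon a x : ℂ)) - LL ψ f (dd h a))
    (LL ψ f (dd h a) - mass ψ * ∫ x, dd h a x ∂(G I))
  have h5 : h * (n * (M * (I * |B|))) + h * (n * (‖mass ψ‖ * Ga)) ≤ h * W := by
    have e5 : h * (n * (M * (I * |B|))) + h * (n * (‖mass ψ‖ * Ga)) = h * (W - 1) := by
      rw [hW]
      ring
    rw [e5]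
    gcongr
    linarith
  linarith

end Pool.Agent.Q30.JL
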