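import Pool.Agent.Q30.JL.Laws

set_option autoImplicit false

/-!
From moments to characteristic functions.
-/

open MeasureTheory ProbabilityTheory Filter Topology

namespace Pool.Agent.Q30.JL

variable {I : ℕ} {Fam : ℝ → (Fin I → ℂ → ℝ) → Prop}

lemma mon_add_single (a : Fin I → ℕ) (j : Fin I) (x : Fin I → ℝ) : mon (a + Pi.single j 1) x = mon a x * x j := by
  unfold mon
  simp only [Pi.add_apply, pow_add, Finset.prod_mul_distrib]
  congr 1
  rw [Finset.prod_eq_single j]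
  · simp
  · intro i _ hi
    simp [Pi.single_eq_of_ne hi]
  · simp

lemma conv_dot (hF : Good Fam) (hmon : ∀ a : Fin I → ℕ, Conv Fam (fun x => (mon a x : ℂ))) (ξ : Fin I → ℝ) (k : ℕ) :
    ∀ a : Fin I → ℕ, Conv Fam (fun x => (dot ξ x : ℂ) ^ k * (mon a x : ℂ)) := by
  induction k with
  | zero =>
    intro a
    exact (hmon a).congr fun x => by simp
  | succ k ih =>
    intro a
    have h1 := Conv.sum hF Finset.univ (Φ := fun j x => (ξ j : ℂ) * ((dot ξ x : ℂ) ^ k * (mon (a + Pi.single j 1) x : ℂ)))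
      fun j _ => (ih (a + Pi.single j 1)).smul (ξ j : ℂ)
    refine h1.congr fun x => ?_
    have e : (dot ξ x : ℂ) = ∑ j, (ξ j : ℂ) * (x j : ℂ) := by unfold dot; push_cast; rfl
    rw [pow_succ]
    nth_rw 2 [e]
    rw [Finset.mul_sum, Finset.sum_mul]
    refine Finset.sum_congr rfl fun j _ => ?_
    rw [mon_add_single]
    push_cast
    ring

lemma conv_dot' (hF : Good Fam) (hmon : ∀ a : Fin I → ℕ, Conv Fam (fun x => (mon a x : ℂ))) (ξ : Fin I → ℝ) (k : ℕ) :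
    Conv Fam (fun x => (dot ξ x : ℂ) ^ k) :=
  (conv_dot hF hmon ξ k 0).congr fun x => by simp [mon]

lemma conv_tay (hF : Good Fam) (hmon : ∀ a : Fin I → ℕ, Conv Fam (fun x => (mon a x : ℂ))) (ξ : Fin I → ℝ) (m : ℕ) :
    Conv Fam (fun x => tay m (dot ξ x * Complex.I)) := by
  have h1 := Conv.sum hF (Finset.range m) (Φ := fun k x => (Complex.I ^ k / (k.factorial : ℂ)) * (dot ξ x : ℂ) ^ k)
    fun k _ => (conv_dot' hF hmon ξ k).smul _
  refine h1.congr fun x => ?_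
  unfold tay
  refine Finset.sum_congr rfl fun k _ => ?_
  rw [mul_pow]
  ring

/-- the real functional -/
lemma LL_real (ψ : ℂ → ℝ) (f : Fin I → ℂ → ℝ) (g : (Fin I → ℝ) → ℝ) :
    LL ψ f (fun x => (g x : ℂ)) = ((∫ z in FD, ψ z * g (fun i => f i z) / z.im ^ 2 : ℝ) : ℂ) := by
  unfold LL
  rw [← integral_complex_ofReal]
  congr 1
  funext z
  push_cast
  rfl

lemma mass_real (ψ : ℂ → ℝ) : mass ψ = ((∫ z in FD, ψ z / z.im ^ 2 : ℝ) : ℂ) := by
  unfold mass
  rw [← integral_complex_ofReal]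
  congr 1
  funext z
  push_cast
  rfl

lemma amgm {δ u p : ℝ} (hδ : 0 < δ) (m : ℕ) :
    |p| * (|u| ^ m / m.factorial) ≤ δ / 2 + p ^ 2 * u ^ (2 * m) / (2 * δ * (m.factorial : ℝ) ^ 2) := by
  set t : ℝ := |p| * (|u| ^ m / m.factorial) with ht
  have h1 : p ^ 2 * u ^ (2 * m) / (2 * δ * (m.factorial : ℝ) ^ 2) = t ^ 2 / (2 * δ) := by
    rw [ht, mul_pow, div_pow, sq_abs, ← pow_mul, mul_comm m 2, (even_two_mul m).pow_abs]
    field_simp
  rw [h1]
  have h2 : 0 ≤ (t - δ) ^ 2 := sq_nonneg _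
  rw [← sub_nonneg]
  have h3 : δ / 2 + t ^ 2 / (2 * δ) - t = (t - δ) ^ 2 / (2 * δ) := by
    field_simp
    ring
  rw [h3]
  positivity

/-- the error of the Taylor polynomial for the forms -/
lemma err_form {ψ : ℂ → ℝ} (hψ : Test ψ) : ∃ V : ℝ, 0 ≤ V ∧ ∀ f : Fin I → ℂ → ℝ,
    (∀ i, ContinuousOn (f i) {z : ℂ | 0 < z.im}) → ∀ (ξ : Fin I → ℝ) (m : ℕ) (δ : ℝ), 0 < δ →
      ‖LL ψ f (fun x => ee ξ x - tay m (dot ξ x * Complex.I))‖ ≤
        δ / 2 * V + ‖LL (fun z => ψ z ^ 2) f (fun x => (dot ξ x : ℂ) ^ (2 * m))‖ / (2 * δ * (m.factorial : ℝ) ^ 2) := by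
  obtain ⟨Y, hY⟩ := hψ.cusp
  have hz0 : ∀ z ∈ FD \ KY Y, ψ z = 0 := by
    rintro z ⟨hz1, hz2⟩
    have : Y ≤ z.im := by
      by_contra hcon
      push Not at hcon
      exact hz2 ⟨hz1, hcon.le⟩
    exact hY z this
  have hint : ∀ g : ℂ → ℝ, ContinuousOn g {z : ℂ | 0 < z.im} → IntegrableOn (fun z => g z / z.im ^ 2) (KY Y) := by
    intro g hg
    refine ContinuousOn.integrableOn_compact (KY_compact Y) ?_
    apply (hg.mono (KY_sub Y)).div (Complex.continuous_im.pow 2).continuousOn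
    intro z hz
    have h0 : 0 < z.im := KY_sub Y hz
    exact (pow_pos h0 2).ne'
  refine ⟨∫ z in KY Y, 1 / z.im ^ 2, ?_, fun f hf ξ m δ hδ => ?_⟩
  · exact setIntegral_nonneg (KY_compact Y).isClosed.measurableSet fun z _ => by positivity
  have hψc : ContinuousOn ψ {z : ℂ | 0 < z.im} := (hψ.smooth 0).continuousOn
  have hdc : ContinuousOn (fun z => dot ξ fun i => f i z) {z : ℂ | 0 < z.im} :=
    (dot_cont ξ).comp_continuousOn (continuousOn_pi.2 hf)
  have hpc : ContinuousOn (fun z => ψ z ^ 2 * (dot ξ fun i => f i z) ^ (2 * m)) {z : ℂ | 0 < z.im} :=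
    (hψc.pow 2).mul (hdc.pow _)
  have e1 : ‖LL (fun z => ψ z ^ 2) f (fun x => (dot ξ x : ℂ) ^ (2 * m))‖ =
      ∫ z in KY Y, (ψ z ^ 2 * (dot ξ fun i => f i z) ^ (2 * m)) / z.im ^ 2 := by
    have h1 := LL_real (fun z => ψ z ^ 2) f (fun x => dot ξ x ^ (2 * m))
    push_cast at h1
    rw [h1, Complex.norm_real, Real.norm_of_nonneg]
    · refine setIntegral_eq_of_subset_of_forall_sdiff_eq_zero FD_meas Set.inter_subset_left fun z hz => ?_
      simp [hz0 z hz]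
    · refine setIntegral_nonneg FD_meas fun z _ => ?_
      have : 0 ≤ (dot ξ fun i => f i z) ^ (2 * m) := (even_two_mul m).pow_nonneg _
      positivity
  have e2 : LL ψ f (fun x => ee ξ x - tay m (dot ξ x * Complex.I)) =
      ∫ z in KY Y, (ψ z : ℂ) * (ee ξ (fun i => f i z) - tay m (dot ξ (fun i => f i z) * Complex.I)) / (z.im : ℂ) ^ 2 := by
    unfold LL
    refine setIntegral_eq_of_subset_of_forall_sdiff_eq_zero FD_meas Set.inter_subset_left fun z hz => ?_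
    simp [hz0 z hz]
  rw [e1, e2, ← integral_const_mul, ← integral_div, ← integral_add ((hint _ continuousOn_const).const_mul _)
    ((hint _ hpc).div_const _)]
  refine norm_integral_le_of_norm_le (((hint _ continuousOn_const).const_mul _).add ((hint _ hpc).div_const _)) ?_
  refine (ae_restrict_iff' (KY_compact Y).isClosed.measurableSet).2 (Eventually.of_forall fun z hz => ?_)
  have him : 0 < z.im := KY_sub Y hz
  rw [norm_div, norm_mul, Complex.norm_real, Real.norm_eq_abs, norm_pow, Complex.norm_real, Real.norm_eq_abs, sq_abs]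
  have h1 : ‖ee ξ (fun i => f i z) - tay m (dot ξ (fun i => f i z) * Complex.I)‖ ≤
      |dot ξ fun i => f i z| ^ m / m.factorial := tay_le _ m
  have h2 := amgm (u := dot ξ fun i => f i z) (p := ψ z) hδ m
  calc |ψ z| * ‖ee ξ (fun i => f i z) - tay m (dot ξ (fun i => f i z) * Complex.I)‖ / z.im ^ 2
      ≤ |ψ z| * (|dot ξ fun i => f i z| ^ m / m.factorial) / z.im ^ 2 := by gcongr
    _ ≤ (δ / 2 + ψ z ^ 2 * (dot ξ fun i => f i z) ^ (2 * m) / (2 * δ * (m.factorial : ℝ) ^ 2)) / z.im ^ 2 := by gcongr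
    _ = _ := by
        field_simp

/-- the error of the Taylor polynomial for the Gaussian vector -/
lemma err_gauss (ξ : Fin I → ℝ) (m : ℕ) {δ : ℝ} (hδ : 0 < δ) (hint : Integrable (fun x => tay m (dot ξ x * Complex.I)) (G I))
    (hint' : Integrable (ee ξ) (G I)) :
    ‖∫ x, tay m (dot ξ x * Complex.I) ∂(G I) - ∫ x, ee ξ x ∂(G I)‖ ≤
      δ / 2 + (∫ x, dot ξ x ^ (2 * m) ∂(G I)) / (m.factorial : ℝ) ^ 2 / (2 * δ) := by
  rw [← integral_sub hint hint']
  have h1 : ‖∫ x, (tay m (dot ξ x * Complex.I) - ee ξ x) ∂(G I)‖ ≤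
      ∫ x, (δ / 2 + dot ξ x ^ (2 * m) * (1 / (2 * δ * (m.factorial : ℝ) ^ 2))) ∂(G I) := by
    refine norm_integral_le_of_norm_le ((integrable_const _).add ((dot_pow_int ξ _).mul_const _))
      (Eventually.of_forall fun x => ?_)
    rw [norm_sub_rev]
    refine (tay_le (dot ξ x) m).trans ?_
    have h2 := amgm (u := dot ξ x) (p := 1) hδ m
    simp only [abs_one, one_mul, one_pow] at h2
    rwa [mul_one_div]
  rw [integral_add (integrable_const _) ((dot_pow_int ξ _).mul_const _), integral_mul_const, integral_const] at h1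
  refine h1.trans (le_of_eq ?_)
  rw [probReal_univ, one_smul]
  field_simp

/-- **Moments give laws.** -/
theorem conv_ee (hF : Good Fam) (hmon : ∀ a : Fin I → ℕ, Conv Fam (fun x => (mon a x : ℂ))) (ξ : Fin I → ℝ) :
    Conv Fam (ee ξ) := by
  have hei : Integrable (ee ξ) (G I) := by
    refine (integrable_const (1 : ℝ)).mono' (ee_cont ξ).aestronglyMeasurable (Eventually.of_forall fun x => ?_)
    unfold ee
    rw [Complex.norm_exp_ofReal_mul_I]
  refine ⟨ee_cont ξ, hei, fun ψ hψ ε hε => ?_⟩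
  obtain ⟨V, hV, hbd⟩ := err_form (I := I) hψ
  set c : ℝ := ‖mass ψ‖ with hc
  have hc0 : 0 ≤ c := norm_nonneg _
  set c2 : ℝ := ‖mass fun z => ψ z ^ 2‖ with hc2
  have hc20 : 0 ≤ c2 := norm_nonneg _
  set δ : ℝ := ε / (2 * (V + c + 1)) with hδ
  have hδ0 : 0 < δ := by positivity
  have hδV : δ / 2 * V + c * (δ / 2) ≤ ε / 4 := by
    have : δ / 2 * (V + c + 1) = ε / 4 := by rw [hδ]; field_simp; norm_num
    nlinarith
  have hsm := (sm_tendsto ξ).mul_const ((c2 + c) / (2 * δ))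
  rw [zero_mul] at hsm
  obtain ⟨m, hm⟩ := (hsm.eventually_lt_const (show (0 : ℝ) < ε / 4 by positivity)).exists
  set s : ℝ := (∫ x, dot ξ x ^ (2 * m) ∂(G I)) / (m.factorial : ℝ) ^ 2 with hs
  have hfac : (0 : ℝ) < (m.factorial : ℝ) ^ 2 := by positivity
  obtain ⟨T1, hT1⟩ := (conv_tay hF hmon ξ m).2.2 ψ hψ (ε / 4) (by positivity)
  obtain ⟨T2, hT2⟩ := (conv_dot' hF hmon ξ (2 * m)).2.2 _ hψ.sq (ε / 4 * (2 * δ * (m.factorial : ℝ) ^ 2)) (by positivity)
  refine ⟨max T1 T2, fun f hf => ?_⟩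
  have h1 := hT1 f (hF.mono _ _ f (le_max_left _ _) hf)
  have h2 := hT2 f (hF.mono _ _ f (le_max_right _ _) hf)
  have hfc := hF.cont _ f hf
  have h3 := hbd f hfc ξ m δ hδ0
  have htc := (conv_tay hF hmon ξ m).1
  have hti := (conv_tay hF hmon ξ m).2.1
  have h4 := err_gauss ξ m hδ0 hti hei
  rw [← hs] at h4
  have e3 : LL ψ f (fun x => ee ξ x - tay m (dot ξ x * Complex.I)) =
      LL ψ f (ee ξ) - LL ψ f (fun x => tay m (dot ξ x * Complex.I)) := by
    have e4 : (fun x => ee ξ x - tay m (dot ξ x * Complex.I)) =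
        fun x => ee ξ x + (fun x => (-1) * tay m (dot ξ x * Complex.I)) x := by
      funext x
      ring
    rw [e4, LL_add (Φ := ee ξ) (Φ' := fun x => (-1) * tay m (dot ξ x * Complex.I)) hψ hfc (ee_cont ξ)
      (continuous_const.mul htc), LL_smul]
    ring
  have hdi : 0 ≤ ∫ x, dot ξ x ^ (2 * m) ∂(G I) := integral_nonneg fun x => (even_two_mul m).pow_nonneg _
  have e5 : ‖∫ x, (dot ξ x : ℂ) ^ (2 * m) ∂(G I)‖ = s * (m.factorial : ℝ) ^ 2 := by
    have e6 : ∫ x, (dot ξ x : ℂ) ^ (2 * m) ∂(G I) = ((∫ x, dot ξ x ^ (2 * m) ∂(G I) : ℝ) : ℂ) := by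
      rw [← integral_complex_ofReal]
      congr 1
      funext x
      push_cast
      rfl
    rw [e6, Complex.norm_real, Real.norm_of_nonneg hdi, hs]
    field_simp
  have h5 : ‖LL (fun z => ψ z ^ 2) f (fun x => (dot ξ x : ℂ) ^ (2 * m))‖ / (2 * δ * (m.factorial : ℝ) ^ 2) ≤
      ε / 4 + c2 * s / (2 * δ) := by
    rw [div_le_iff₀ (by positivity)]
    have h6 : ‖LL (fun z => ψ z ^ 2) f (fun x => (dot ξ x : ℂ) ^ (2 * m))‖ ≤
        ‖LL (fun z => ψ z ^ 2) f (fun x => (dot ξ x : ℂ) ^ (2 * m)) - (mass fun z => ψ z ^ 2) *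
          ∫ x, (dot ξ x : ℂ) ^ (2 * m) ∂(G I)‖ + c2 * (s * (m.factorial : ℝ) ^ 2) := by
      rw [← e5, hc2, ← norm_mul]
      exact norm_le_norm_sub_add _ _
    have h7 : (ε / 4 + c2 * s / (2 * δ)) * (2 * δ * (m.factorial : ℝ) ^ 2) =
        ε / 4 * (2 * δ * (m.factorial : ℝ) ^ 2) + c2 * (s * (m.factorial : ℝ) ^ 2) := by
      field_simp
    rw [h7]
    linarith
  have e : LL ψ f (ee ξ) - mass ψ * ∫ x, ee ξ x ∂(G I) =
      LL ψ f (fun x => ee ξ x - tay m (dot ξ x * Complex.I)) +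
        (LL ψ f (fun x => tay m (dot ξ x * Complex.I)) - mass ψ * ∫ x, tay m (dot ξ x * Complex.I) ∂(G I)) +
        mass ψ * (∫ x, tay m (dot ξ x * Complex.I) ∂(G I) - ∫ x, ee ξ x ∂(G I)) := by
    rw [e3]
    ring
  rw [e]
  have h8 : ‖mass ψ * (∫ x, tay m (dot ξ x * Complex.I) ∂(G I) - ∫ x, ee ξ x ∂(G I))‖ ≤ c * (δ / 2 + s / (2 * δ)) := by
    rw [norm_mul]
    gcongr
  have h9 : s * ((c2 + c) / (2 * δ)) = c2 * s / (2 * δ) + c * (s / (2 * δ)) := by
    field_simp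
  rw [h9] at hm
  refine (norm_add_le _ _).trans_lt ?_
  have h10 := norm_add_le (LL ψ f (fun x => ee ξ x - tay m (dot ξ x * Complex.I)))
    (LL ψ f (fun x => tay m (dot ξ x * Complex.I)) - mass ψ * ∫ x, tay m (dot ξ x * Complex.I) ∂(G I))
  rw [mul_add] at h8
  linarith

end Pool.Agent.Q30.JL
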